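import Mathlib
import Pool.Agent.Y224.OD.Stm

/-! # Semisimple endomorphisms are diagonalizable after base change (job OD-DIAG) -/

set_option autoImplicit false

namespace Pool.Agent.Y949.OD

open Module Polynomial TensorProduct Pool.Agent.Y224.OD

theorem semisimple_baseChange {k K V : Type} [Field k] [CharZero k] [Field K] [Algebra k K]
    [AddCommGroup V] [Module k V] [FiniteDimensional k V] {F : Module.End k V}
    (hF : F.IsSemisimple) : Module.End.IsSemisimple (F.baseChange K) := by
  have h1 : (minpoly k F).Separable :=
    PerfectField.separable_iff_squarefree.2 hF.minpoly_squarefree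
  have h2 : ((minpoly k F).map (algebraMap k K)).Separable := h1.map
  apply Module.End.isSemisimple_of_squarefree_aeval_eq_zero h2.squarefree
  rw [aeval_map_algebraMap]
  have h3 : F.baseChange K = Module.End.baseChangeHom k K V F := rfl
  rw [h3, aeval_algHom_apply, minpoly.aeval, map_zero]

theorem t_diag : S_DIAG := by
  intro k K V _ _ _ _ _ _ _ _ F hF
  classical
  set G : Module.End K (K ⊗[k] V) := F.baseChange K with hG
  have hss : G.IsSemisimple := semisimple_baseChange hF
  let eigenDecomp := DirectSum.isInternal_submodule_of_iSupIndep_of_iSup_eq_top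
    G.eigenspaces_iSupIndep hss.iSup_eigenspace_eq_top
  have hfree : ∀ μ : K, Module.Free K (G.eigenspace μ) := fun μ =>
    Module.Free.of_divisionRing K (G.eigenspace μ)
  let I := (ν : K) × Fin (finrank K (G.eigenspace ν))
  let v : Basis I K (K ⊗[k] V) :=
    eigenDecomp.collectedBasis fun μ ↦ finBasis K (G.eigenspace μ)
  have : Fintype I := FiniteDimensional.fintypeBasisIndex v
  have hsv : ∀ i : I, G (v i) = i.1 • v i := fun i =>
    Module.End.mem_eigenspace_iff.mp (eigenDecomp.collectedBasis_mem _ i)
  have hcard : Fintype.card I = finrank k V := by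
    rw [← finrank_eq_card_basis v, finrank_baseChange]
  let e : I ≃ Fin (finrank k V) := Fintype.equivFinOfCardEq hcard
  refine ⟨v.reindex e, fun i => (e.symm i).1, ?_, ?_⟩
  · intro i
    rw [Basis.reindex_apply]
    exact hsv _
  · rw [← LinearMap.charpoly_baseChange, ← hG, ← LinearMap.charpoly_toMatrix G (v.reindex e)]
    have h1 : LinearMap.toMatrix (v.reindex e) (v.reindex e) G =
        Matrix.diagonal fun i => (e.symm i).1 := by
      ext i j
      rw [LinearMap.toMatrix_apply, Basis.reindex_apply, hsv, map_smul, ← Basis.reindex_apply,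
        Basis.repr_self, Finsupp.smul_apply, Matrix.diagonal_apply, Finsupp.single_apply,
        smul_eq_mul]
      by_cases hij : i = j
      · subst hij
        simp
      · rw [if_neg hij, if_neg (Ne.symm hij), mul_zero]
    rw [h1, Matrix.charpoly_diagonal]

end Pool.Agent.Y949.OD
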